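import Pool.Agent.Helper15.All.BLKY
import Pool.Agent.Helper97.Nag.All1

/-!
# Project ALLSYSTEMS, MAIN: the main inequality

Adapted from Helper90/UN/Main.lean.
-/

set_option autoImplicit false

noncomputable section

namespace Pool.Agent.Helper15.All.MAIN

open Module Pool.Agent.Helper97 Pool.Agent.Helper97.Nag Pool.Agent.Helper1.All Pool.Agent.Helper98.UN

open Pool.Agent.Helper97.Tate (OO KK SS cf IsTh qe Th iO ser evx evK th Van Fm tst nP Idx Indep IsCub)

/-- THE MAIN INEQUALITY -/
theorem t (hB : S_BLKY) : S_MAIN := by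
  intro d b M u y rho C hu0 hy0 hC hI
  have G := nGoals
  obtain ⟨F, _, _, x, hx⟩ := G.gen
  obtain ⟨g, hg⟩ := G.crv F
  have : CharZero (KK F) := Tate.charZero_KK F
  have : Infinite (KK F) := Infinite.of_injective _ (Nat.cast_injective (R := KK F))
  have hne : ∀ l : Fin b, (u l : F) * (x : F) ≠ 0 := by
    intro l
    apply mul_ne_zero _ (Units.ne_zero x)
    exact_mod_cast (hu0 l).ne'
  let x' : Fin b → Fˣ := fun l => Units.mk0 _ (hne l)
  have hx' : ∀ l, ((x' l : Fˣ) : F) = (u l : F) * (x : F) := fun l => rfl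
  have hLH := G.lhy F g hg d b x'
  have hu : ∀ l, PowerSeries.constantCoeff (MvPolynomial.aeval (phk 3 (x' l))
      (MvPolynomial.pderiv 0 (crvK g))) ≠ 0 := fun l => (G.cuv F 3 g le_rfl hg (x' l)).2
  have hg0 : crvK g ≠ 0 := by
    intro h0
    have := (G.cuv F 3 g le_rfl hg x).2
    rw [h0, map_zero, map_zero, map_zero] at this
    exact this rfl
  obtain ⟨P', hP'⟩ := G.mik (KK F) (Fin 0) (crvK g) (fun i : Fin 0 => (i.elim0 : Fin 3 → KK F))
    (fun i => i.elim0) d 3 b M (nu1 d) (fun l => phk 3 (x' l))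
    (fun l => (MvPolynomial.aeval (phk 3 (x' l)) (MvPolynomial.pderiv 0 (crvK g)))⁻¹ *
      PowerSeries.C ((y l : ℚ) : KK F))
    (fun _ => 1) (fun _ => 1) (fun l => ((y l : ℚ) : KK F))
    (fun l j ρ => SEX d (x' l) j ρ) (by norm_num) hg0
    (hg.1.map _) (fun i => i.elim0) (fun l => (G.cuv F 3 g le_rfl hg (x' l)).1)
    (by
      intro l
      rw [← mul_assoc, PowerSeries.mul_inv_cancel _ (hu l), one_mul, mul_one])
    (by
      intro l
      rw [map_one]
      exact one_ne_zero)
    hLH
  have hPe : (Fm (KK F) d ⊓ (⨅ i : Fin 0, Van (i.elim0 : Fin 3 → KK F) (i.elim0)) ⊓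
      ⨅ l, Van (P' l) (M l) : Submodule (KK F) (MvPolynomial (Fin 3) (KK F))) =
      Fm (KK F) d ⊓ ⨅ l, Van (P' l) (M l) := by
    rw [iInf_of_empty, inf_top_eq]
  refine ⟨KK F, inferInstance, inferInstance, P', ?_⟩
  -- the columns
  set φ : ℕ × ℤ → ℕ × ℕ := fun c => (c.1, (c.2 % ((3 * (d - 3 * c.1) : ℕ) : ℤ)).toNat) with hφ
  have hinj : Set.InjOn φ (C : Set (ℕ × ℤ)) := by
    rintro ⟨j, n⟩ hc ⟨j', n'⟩ hc' h
    simp only [hφ, Prod.mk.injEq] at h
    obtain ⟨rfl, h2⟩ := h
    have h3 : n = n' := colT_inj (hC _ hc) (hC _ hc') h2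
    rw [h3]
  have hcardC : (C.image φ).card = C.card := Finset.card_image_of_injOn hinj
  have hdim := G.dim (KK F) b (d / 3 + 1) M (nu1 d) (fun l => ((y l : ℚ) : KK F))
    (fun l j ρ => SEX d (x' l) j ρ) (C.image φ)
    (by
      intro c hc
      obtain ⟨⟨j, n⟩, hc1, rfl⟩ := Finset.mem_image.1 hc
      have hB := hC _ hc1
      have hj := inT_le hB
      simp only [hφ]
      simp only at hj
      constructor
      · omega
      · rcases hB with ⟨h1, -⟩ | ⟨h1, h3⟩
        · simp only at h1
          have hne : 3 * j ≠ d := by omega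
          rw [nu1, if_neg hne]
          have hkz : (0 : ℤ) < ((3 * (d - 3 * j) : ℕ) : ℤ) := by
            have : 0 < 3 * (d - 3 * j) := by omega
            exact_mod_cast this
          have p1 := Int.emod_nonneg n hkz.ne'
          have p2 := Int.emod_lt_of_pos n hkz
          omega
        · simp only at h1 h3
          rw [nu1, if_pos h1, h3]
          simp)
    (by
      intro a ha
      have hB := hB F d b M u y rho x hx hu0 hy0 x' hx' C hC hI
        (fun c => a (φ c)) (by
          intro l α β hαβ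
          have h1 := ha l α β hαβ
          rw [Finset.sum_image hinj] at h1
          exact h1)
      intro c hc
      obtain ⟨c', hc', rfl⟩ := Finset.mem_image.1 hc
      exact hB c' hc')
  rw [hcardC] at hdim
  have hP2 : finrank (KK F) (Fm (KK F) d ⊓ ⨅ l, Van (P' l) (M l) :
      Submodule (KK F) (MvPolynomial (Fin 3) (KK F))) ≤
      finrank (KK F) (KerV M (d / 3 + 1) (nu1 d) (fun l => ((y l : ℚ) : KK F))
        (fun l j ρ => SEX d (x' l) j ρ)) := by
    rw [← hPe]
    exact hP'
  exact (Nat.add_le_add_right hP2 _).trans hdim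

/-- without hypotheses -/
theorem blky : S_BLKY := BLKY.t all_DETR all_ENTX

theorem main : S_MAIN := t blky

end Pool.Agent.Helper15.All.MAIN
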