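import Pool.Agent.Helper1.All.Goals
import Pool.Agent.Helper90.Nag.BLKX
import Pool.Agent.Helper97.Tate.Klev

/-!
# Project ALLSYSTEMS, BLKY: independence of the columns, points `(u l, y l)` of the torus

Adapted from Helper90/UN/BLKY.lean.
-/

set_option autoImplicit false

noncomputable section

namespace Pool.Agent.Helper15.All.BLKY

open Pool.Agent.Helper97.Nag Pool.Agent.Helper1.All Pool.Agent.Helper98.UN

open Pool.Agent.Helper97.Tate (OO KK qe)

open Pool.Agent.Helper90.Nag.BLKX (coeff_ENTX level)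

theorem t (hD : S_DETR) (hE : S_ENTX) : S_BLKY := by
  classical
  intro F _ _ d b M u y rho x hgen hu0 hy0 x' hx' C hC hind a ha
  have : CharZero (KK F) := Pool.Agent.Helper97.Tate.charZero_KK F
  obtain ⟨f, hf, hfe⟩ := hE F d x hgen
  choose N₀ hlead hall using fun c : {c // c ∈ C} => level d rho c.1.1 c.1.2 (hC c.1 c.2)
  set bw : ℤ →+ ℝ := (AddMonoidHom.mulLeft (-rho / 9)).comp (Int.castAddHom ℝ) with hbw
  have hbwa : ∀ n : ℤ, bw n = -rho / 9 * (n : ℝ) := fun n => rfl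
  have hcf : ∀ (u : ℚ) (N : ℕ) (s : PowerSeries (AddMonoidAlgebra ℚ ℤ)) (g : ℤ),
      (PowerSeries.coeff N (algebraMap ℚ (PowerSeries (AddMonoidAlgebra ℚ ℤ)) u * s)).coeff g =
        u * (PowerSeries.coeff N s).coeff g := by
    intro u N s g
    rw [← Algebra.smul_def, PowerSeries.coeff_smul, AddMonoidAlgebra.coeff_smul,
      Finsupp.smul_apply, smul_eq_mul]
  have hfu : ∀ u : ℚ, f (algebraMap ℚ (PowerSeries (AddMonoidAlgebra ℚ ℤ)) u) = (u : KK F) := by
    intro u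
    have h1 : f.comp (algebraMap ℚ (PowerSeries (AddMonoidAlgebra ℚ ℤ))) = Rat.castHom (KK F) :=
      Subsingleton.elim _ _
    exact congrArg (fun h : ℚ →+* KK F => h u) h1
  have key := hD ℤ {ρ : Σ l : Fin b, Fin (M l) × Fin (M l) // (ρ.2.1 : ℕ) + (ρ.2.2 : ℕ) < M ρ.1}
    {c // c ∈ C} Unit bw (fun _ => ()) (fun _ => ())
    (fun ρ c => algebraMap ℚ (PowerSeries (AddMonoidAlgebra ℚ ℤ)) (y ρ.1.1 ^ c.1.1) *
      ENTX d (u ρ.1.1) (ρ.1.2.1 : ℕ) (ρ.1.2.2 : ℕ) c.1.1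
      (c.1.2 % ((3 * (d - 3 * c.1.1) : ℕ) : ℤ)).toNat)
    (fun c => (N₀ c : ℝ) + -rho / 9 * (c.1.2 : ℝ)) (fun _ => 0)
    (fun c => N₀ c) (fun c => c.1.2)
    (fun ρ c => y ρ.1.1 ^ c.1.1 * (((Ring.choose c.1.2 (ρ.1.2.1 : ℕ) : ℤ) : ℚ) *
      ((c.1.1.choose (ρ.1.2.2 : ℕ) : ℕ) : ℚ) * (u ρ.1.1) ^ c.1.2))
    ?_ ?_ ?_ ?_ (KK F) f hf (fun c => a c.1) ?_
  · intro c hc
    exact congrFun key ⟨c, hc⟩
  · -- weights
    rintro ρ c N g hne
    rw [hcf, coeff_ENTX] at hne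
    have h1 : (PowerSeries.coeff N (FX d c.1.1
        (c.1.2 % ((3 * (d - 3 * c.1.1) : ℕ) : ℤ)).toNat)).coeff g ≠ 0 := by
      intro h0
      apply hne
      rw [h0, zero_mul, zero_mul, zero_mul, mul_zero]
    obtain ⟨A, B⟩ := hall c N g h1
    simp only [hbwa, add_zero]
    exact ⟨A, fun h => ⟨trivial, B h⟩⟩
  · intro c
    simp only [hbwa, add_zero]
  · rintro ρ c -
    rw [hcf, coeff_ENTX, hlead c, one_mul]
  · -- independence of the leading coefficients
    intro e he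
    have hinj : Function.Injective (Subtype.val : {c // c ∈ C} → ℕ × ℤ) := Subtype.val_injective
    have hz := hind (Function.extend Subtype.val e 0) (by
      intro l α β hαβ
      have h6 := he ⟨⟨l, (⟨α, by omega⟩, ⟨β, by omega⟩)⟩, hαβ⟩
      simp only [Finset.filter_true] at h6
      have hyb : y l ^ β ≠ 0 := pow_ne_zero _ (hy0 l)
      apply mul_left_cancel₀ hyb
      rw [mul_zero, ← h6, ← Finset.sum_coe_sort C, Finset.mul_sum]
      refine Finset.sum_congr rfl fun c _ => ?_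
      rw [hinj.extend_apply]
      rcases lt_or_ge c.1.1 β with h7 | h7
      · rw [Nat.choose_eq_zero_of_lt h7]
        push_cast
        ring
      · have h8 : y l ^ c.1.1 = y l ^ β * y l ^ (c.1.1 - β) := by
          rw [← pow_add, Nat.add_sub_of_le h7]
        rw [h8]
        ring)
    funext c
    have hc0 := hz c.1 c.2
    rw [hinj.extend_apply] at hc0
    exact hc0
  · -- the relations
    intro ρ
    rw [← ha ρ.1.1 (ρ.1.2.1 : ℕ) (ρ.1.2.2 : ℕ) ρ.2, ← Finset.sum_coe_sort C]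
    refine Finset.sum_congr rfl fun c _ => ?_
    rw [map_mul, hfu, hfe (u ρ.1.1) (x' ρ.1.1) (hu0 ρ.1.1) (hx' ρ.1.1), mul_comm, Rat.cast_pow,
      mul_assoc]

end Pool.Agent.Helper15.All.BLKY
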